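import Pool.Agent.helper74.ForZ

/-!
# The countable union statement for `ℕ`-compact spaces is not provable in ZF
-/

namespace Pool.Agent.Results.MP_591233_lc.NotProvable

open Pool.Agent.helper31.ZF Pool.Agent.helper74.ZT Pool.Agent.helper74.Forc

/-- There is a model of ZF in which the statement of Q1 fails. -/
theorem result : ∃ (M : Type) (_ : ZFModel M), ¬ CountableUnionStatement M := by
  obtain ⟨M, hM, h⟩ := exists_not_partialZChoice
  exact ⟨M, hM, fun hQ => h (partialZChoice_of_statement hQ)⟩

end Pool.Agent.Results.MP_591233_lc.NotProvable
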