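import Pool.Agent.helper74.ZTopMain

/-!
# The countable union statement for `ℕ`-compact spaces needs a form of choice
-/

namespace Pool.Agent.Results.MP_591233_lc.UnionNeedsChoice

open Pool.Agent.helper31.ZF Pool.Agent.helper74.ZT

universe u

/-- In every model of ZF in which the statement of Q1 holds, every sequence of linear orders of
order type `ℤ` has a choice function on some infinite set of indices. -/
theorem result (M : Type u) [ZFModel M] (h : CountableUnionStatement M) : PartialZChoice M :=
  partialZChoice_of_statement h

end Pool.Agent.Results.MP_591233_lc.UnionNeedsChoice
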